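import Pool.Agent.Helper98.TW.Basic

/-!
Sheet TW (MP_7a8f48_an): row H00, the start of the hull.
-/

open MeasureTheory Filter Topology Finset
open scoped ComplexConjugate

namespace Pool.Agent.Helper94.TWR

open Pool.Agent.Helper16.AZ (T mm)
open Pool.Agent.Helper98.TW

theorem st_H00 (hM : ST_MPS) (hA : ST_ALS) : ST_H00 := by
  intro N lev f f' p q κ hT _
  have hS : Sys (mm N) (SS f) (SS f') := by simpa using hM N lev f f' hT 1
  have h0 : AL lev 0 = bo := (hA N lev).1
  have hia : IA (mm N) bo (SS f) (SS f') := ia_bo hS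
  refine ⟨lq_bo, hia, ?_, ?_, ?_⟩
  · intro ψ _ h _ _
    rwa [h0] at h
  · intro ψ _ h _ _ _ _ _
    rwa [h0] at h
  · intro ψ _ h _
    rw [h0] at h
    exact inc_of_am hia h

end Pool.Agent.Helper94.TWR
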