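import Pool.Agent.Helper98.TW.Basic

/-!
Sheet TW (MP_7a8f48_an): row HAA, visible functions of character `0`.
-/

open MeasureTheory Filter Topology Finset
open scoped ComplexConjugate

namespace Pool.Agent.Helper94.TWR

open Pool.Agent.Helper16.AZ (T mm)
open Pool.Agent.Helper98.TW

variable {N : ℕ}

theorem ex_zero : (ex (0 : Fin N → ℤ)) = fun _ => 1 := by
  funext x
  simp [ex, UnitAddTorus.mFourier]

theorem ex_add (a b : Fin N → ℤ) (x : T N) : ex (a + b) x = ex a x * ex b x := by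
  simp only [ex, UnitAddTorus.mFourier, ContinuousMap.coe_mk, Pi.add_apply, fourier_add,
    Finset.prod_mul_distrib]

theorem ex_neg (a : Fin N → ℤ) (x : T N) : ex (-a) x = conj (ex a x) := by
  simp only [ex, UnitAddTorus.mFourier, ContinuousMap.coe_mk, Pi.neg_apply, fourier_neg, map_prod]

theorem ex_meas (a : Fin N → ℤ) : Measurable (ex a) :=
  (UnitAddTorus.mFourier a).continuous.measurable

theorem ex_norm (a : Fin N → ℤ) (x : T N) : ‖ex a x‖ = 1 := by
  simp [ex, UnitAddTorus.mFourier]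

theorem uf_ex (a : Fin N → ℤ) : UF (mm N) (ex a) :=
  ⟨ex_meas a, Filter.Eventually.of_forall fun x => ex_norm a x⟩

theorem la_zero (lev : Fin N → ℕ) (l : ℕ) : la lev l 0 := fun i h => absurd rfl h

theorem la_add {lev : Fin N → ℕ} {l : ℕ} {a b : Fin N → ℤ} (ha : la lev l a) (hb : la lev l b) :
    la lev l (a + b) := by
  intro i hi
  by_cases h : a i = 0
  · refine hb i fun h' => hi ?_
    simp [h, h']
  · exact ha i h

theorem la_neg {lev : Fin N → ℕ} {l : ℕ} {a : Fin N → ℤ} (ha : la lev l a) : la lev l (-a) :=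
  fun i hi => ha i fun h => hi (by simp [h])

theorem vis_mul {κ : Measure (T N × T N)} {C : SA (T N)} {φ ψ : T N → ℂ} (h1 : Vis κ C φ)
    (h2 : Vis κ C ψ) : Vis κ C (fun x => φ x * ψ x) := am_mul h1 h2

theorem vis_pow {κ : Measure (T N × T N)} {C : SA (T N)} {φ : T N → ℂ} (h1 : Vis κ C φ)
    (n : ℕ) : Vis κ C (fun x => φ x ^ n) := am_pow h1 n

theorem vis_conj {κ : Measure (T N × T N)} {C : SA (T N)} {φ : T N → ℂ} (h1 : Vis κ C φ) :
    Vis κ C (fun x => conj (φ x)) := am_conj h1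

theorem grp_VS (lev : Fin N → ℕ) (f : Fin N → T N → U) (p q : ℕ) (κ : Measure (T N × T N))
    (C : SA (T N)) (l : ℕ) : Grp (mm N) (VS lev f p q κ C l) := by
  refine ⟨fun φ hφ => hφ.1.1, ?_, ?_, ?_⟩
  · refine ⟨⟨uf_one, ⟨0, la_zero lev l, ?_⟩, inc_one⟩, 1, le_rfl, Nat.coprime_one_left q, ?_⟩
    · rw [ex_zero]
      simpa using am_const (μ := mm N) (𝒜 := AL lev l) 1
    · show AM κ _ _
      simpa using am_const (μ := κ) (𝒜 := jo (BB N) (cm Prod.fst C)) 1
  · rintro φ ⟨⟨u1, ⟨a, ha, ga⟩, i1⟩, M, hM1, hMq, hV⟩ ψ ⟨⟨u2, ⟨b, hb, gb⟩, i2⟩, M', hM1', hMq', hV'⟩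
    refine ⟨⟨u1.mul u2, ⟨a + b, la_add ha hb, ?_⟩, i1.mul i2⟩, M * M', Nat.one_le_iff_ne_zero.2
      (Nat.mul_ne_zero (by omega) (by omega)), Nat.Coprime.mul_left hMq hMq', ?_⟩
    · refine am_congr (am_mul ga gb) (Filter.Eventually.of_forall fun x => ?_)
      simp only [ex_add, map_mul]
      ring
    · have h1 := vis_mul (vis_pow hV M') (vis_pow hV' M)
      refine am_congr h1 (Filter.Eventually.of_forall fun z => ?_)
      simp only [mul_pow, ← pow_mul]
      rw [Nat.mul_comm M' M]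
  · rintro φ ⟨⟨u1, ⟨a, ha, ga⟩, i1⟩, M, hM1, hMq, hV⟩
    refine ⟨⟨u1.conj, ⟨-a, la_neg ha, ?_⟩, i1.conj⟩, M, hM1, hMq, ?_⟩
    · refine am_congr (am_conj ga) (Filter.Eventually.of_forall fun x => ?_)
      simp only [ex_neg, map_mul]
    · refine am_congr (vis_conj hV) (Filter.Eventually.of_forall fun z => ?_)
      simp only [map_pow]

theorem st_HAA : ST_HAA := by
  intro N lev f f' p q κ C l _ hP
  refine ⟨grp_VS lev f p q κ C l, ?_⟩
  rintro ψ ⟨⟨u, _, i⟩, M, hM1, hMq, hV⟩ hA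
  refine hP.c ψ u hA i M hM1 hMq ?_
  exact hP.b _ (u.pow M) (am_pow hA M) (i.pow M) hV

end Pool.Agent.Helper94.TWR
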