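import Pool.Agent.Helper94.TWR.HSI

/-!
Sheet TW (MP_7a8f48_an): row HIA, invariance of the next hull.
-/

open MeasureTheory Filter Topology Finset
open scoped ComplexConjugate

namespace Pool.Agent.Helper94.TWR

open Pool.Agent.Helper16.AZ (T mm)
open Pool.Agent.Helper98.TW

variable {N : ℕ}

theorem tr_add_pk {lev : Fin N → ℕ} {l k : ℕ} (h : l ≤ k) (x t : T N) :
    tr lev l (x + pk lev k t) = tr lev l x := by
  funext i
  unfold tr pk
  by_cases hi : lev i < l
  · have : lev i ≠ k := by omega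
    simp [hi, this]
  · simp [hi]

theorem pk_neg (lev : Fin N → ℕ) (k : ℕ) (t : T N) : pk lev k (-t) = -pk lev k t := by
  funext i
  unfold pk
  by_cases hi : lev i = k
  · simp [hi]
  · simp [hi]

theorem sys_trans (lev : Fin N → ℕ) (k : ℕ) (t : T N) :
    Sys (mm N) (fun x => x + pk lev k t) (fun x => x + pk lev k (-t)) := by
  refine ⟨measurePreserving_add_right (mm N) _, measurePreserving_add_right (mm N) _,
    Filter.Eventually.of_forall fun x => ?_, Filter.Eventually.of_forall fun x => ?_⟩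
  · simp [pk_neg]
  · simp [pk_neg]

/-- functions of the levels `< l` do not see the translations of the level `k ≥ l` -/
theorem am_trans {lev : Fin N → ℕ} {l k : ℕ} (h : l ≤ k) {F : T N → ℂ}
    (hF : AM (mm N) (AL lev l) F) (t : T N) : ∀ᵐ x ∂(mm N), F (x + pk lev k t) = F x := by
  obtain ⟨g, hg, hFg⟩ := am_iff.1 hF
  have hinv : ∀ x, g (x + pk lev k t) = g x := by
    intro x
    have hs : MeasurableSet[AL lev l] (g ⁻¹' {g x}) := hg (measurableSet_singleton _)
    obtain ⟨s, -, hs2⟩ := hs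
    have hx : x ∈ tr lev l ⁻¹' s := by rw [hs2]; simp
    have hy : x + pk lev k t ∈ tr lev l ⁻¹' s := by
      rw [Set.mem_preimage, tr_add_pk h]
      exact hx
    rw [hs2] at hy
    exact hy
  filter_upwards [hFg, ae_comp (sys_trans lev k t).mp hFg] with x h1 h2
  rw [h2, hinv, h1]

theorem ia_trans {lev : Fin N → ℕ} {C : SA (T N)} {l k : ℕ} (h : l ≤ k) (hC : Lm C)
    (hle : LQ (mm N) C (AL lev l)) (t : T N) :
    IA (mm N) C (fun x => x + pk lev k t) (fun x => x + pk lev k (-t)) := by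
  refine ⟨hC, fun F hF => ⟨?_, ?_⟩⟩
  · refine am_congr hF ?_
    filter_upwards [am_trans h (hle _ hF) t] with x hx
    exact hx.symm
  · refine am_congr hF ?_
    filter_upwards [am_trans h (hle _ hF) (-t)] with x hx
    exact hx.symm

/-- the increments of homogeneous functions for translations are constant -/
theorem inc_trans {lev : Fin N → ℕ} {C : SA (T N)} {l : ℕ} {a : Fin N → ℤ} {ψ : T N → ℂ}
    (uψ : UF (mm N) ψ) (hg : AM (mm N) (AL lev l) (fun x => conj (ex a x) * ψ x)) (t : T N) :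
    Inc (mm N) C (fun x => x + pk lev l t) ψ := by
  refine am_congr (am_const (ex a (pk lev l t))) ?_
  filter_upwards [am_trans le_rfl hg t, uψ.mul_conj] with x h1 h2
  have e1 := ex_mul_conj a x
  have e2 := ex_mul_conj a (x + pk lev l t)
  have e3 : ψ (x + pk lev l t) = ex a (pk lev l t) * ψ x := by
    calc ψ (x + pk lev l t) = ex a (x + pk lev l t) * conj (ex a (x + pk lev l t)) *
          ψ (x + pk lev l t) := by rw [e2, one_mul]
      _ = ex a (x + pk lev l t) * (conj (ex a (x + pk lev l t)) * ψ (x + pk lev l t)) := by ring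
      _ = ex a (x + pk lev l t) * (conj (ex a x) * ψ x) := by rw [h1]
      _ = ex a (pk lev l t) * (ex a x * conj (ex a x)) * ψ x := by rw [ex_vadd]; ring
      _ = ex a (pk lev l t) * ψ x := by rw [e1]; ring
  rw [e3, mul_assoc, h2, mul_one]

theorem st_HIA (hM : ST_MPS) (hA : ST_ALS) (hJ : ST_IAJ) (hH : ST_HAA) (hSI : ST_HSI) :
    ST_HIA := by
  intro N lev f f' p q κ C l hT hp hq hne hP
  have hS : Sys (mm N) (SS f) (SS f') := by simpa using hM N lev f f' hT 1
  obtain ⟨hG, -⟩ := hH N lev f f' p q κ C l hT hP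
  obtain ⟨-, -, -, hmono, -, -, hex⟩ := hA N lev
  refine ⟨?_, ?_, ?_⟩
  · exact (hJ (T N) (mm N) (SS f) (SS f') hS).2 C _ hP.ia hG
      fun φ hφ => hSI N lev f f' p q κ C l hT hp hq hne hP φ hφ.1
  · refine lq_jo (lq_trans hP.le (hmono l (l + 1) (Nat.le_succ l))) (lq_sg ?_)
    rintro φ ⟨⟨-, ⟨a, ha, hg⟩, -⟩, -⟩
    refine am_congr (am_mul (hex l (l + 1) a (Nat.lt_succ_self l) ha)
      (hmono l (l + 1) (Nat.le_succ l) _ hg)) (Filter.Eventually.of_forall fun x => ?_)
    simp only
    rw [← mul_assoc, ex_mul_conj, one_mul]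
  · intro t
    refine (hJ (T N) (mm N) _ _ (sys_trans lev l t)).2 C _
      (ia_trans le_rfl hP.ia.1 hP.le t) hG ?_
    rintro φ ⟨⟨u, ⟨a, ha, hg⟩, -⟩, -⟩
    exact inc_trans u hg t

end Pool.Agent.Helper94.TWR
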