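import Pool.Agent.Helper98.TW.Basic

/-!
Sheet TW (MP_7a8f48_an): row HNS, property (s) of the next hull.
-/

open MeasureTheory Filter Topology Finset
open scoped ComplexConjugate

namespace Pool.Agent.Helper94.TWR

open Pool.Agent.Helper16.AZ (T mm)
open Pool.Agent.Helper98.TW

theorem st_HNS (hM : ST_MPS) (hHO : ST_HHO) (hIA : ST_HIA) (hSI : ST_HSI) : ST_HNS := by
  intro N lev f f' p q κ C l hT hMR hE _ hp hq hne hP ψ uψ hAψ hi
  have hS : Sys (mm N) (SS f) (SS f') := by simpa using hM N lev f f' hT 1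
  obtain ⟨w, φ, -, hw, hφ, h⟩ := hHO N lev f f' p q κ C l hT hMR hE hp hq hne hP ψ uψ hAψ hi
  obtain ⟨h1, -⟩ := hIA N lev f f' p q κ C l hT hp hq hne hP
  have h2 : Inc (mm N) C (SS f) φ := hSI N lev f f' p q κ C l hT hp hq hne hP φ hφ
  exact Inc.congr hS.mp ((inc_of_am h1 hw).mul (h2.lq lq_jo_left)) h.symm

end Pool.Agent.Helper94.TWR
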