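import Pool.Agent.Helper94.TWR.HAA

/-!
Sheet TW (MP_7a8f48_an): row HSI, homogeneous functions have increments in `C` for `S` itself.
-/

open MeasureTheory Filter Topology Finset
open scoped ComplexConjugate

namespace Pool.Agent.Helper94.TWR

open Pool.Agent.Helper16.AZ (T mm)
open Pool.Agent.Helper98.TW

variable {N : ℕ}

theorem ex_vadd (a : Fin N → ℤ) (x y : T N) : ex a (x + y) = ex a x * ex a y := by
  simp only [ex, UnitAddTorus.mFourier, ContinuousMap.coe_mk, Pi.add_apply, fourier_apply,
    smul_add, AddCircle.toCircle_add, Circle.coe_mul, Finset.prod_mul_distrib]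

theorem ex_mul_conj (a : Fin N → ℤ) (x : T N) : ex a x * conj (ex a x) = 1 := by
  rw [Complex.mul_conj, Complex.normSq_eq_norm_sq, ex_norm]
  simp

/-- the increment of a character of level `l` depends on the levels below -/
theorem am_ex_SS {lev : Fin N → ℕ} {f : Fin N → T N → U} (hf : Tow lev f) {l : ℕ}
    {a : Fin N → ℤ} (ha : la lev l a) :
    AM (mm N) (AL lev l) (fun x => ex a (SS f x) * conj (ex a x)) := by
  have h1 : ∀ x, ex a (SS f x) * conj (ex a x) =
      ∏ i, (fourier (a i) (f i (tr lev l x)) : ℂ) := by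
    intro x
    have e1 : SS f x = x + fun i => f i x := rfl
    rw [e1, ex_vadd, mul_right_comm, ex_mul_conj, one_mul]
    simp only [ex, UnitAddTorus.mFourier, ContinuousMap.coe_mk]
    refine Finset.prod_congr rfl fun i _ => ?_
    by_cases h : a i = 0
    · simp [h]
    · rw [← ha i h, hf.dep i x]
  have h2 : Measurable (fun y : T N => ∏ i, (fourier (a i) (f i y) : ℂ)) := by
    refine Finset.measurable_prod _ fun i _ => ?_
    exact (fourier (a i)).continuous.measurable.comp (hf.meas i)
  refine am_congr (am_of ?_) (Filter.Eventually.of_forall fun x => (h1 x).symm)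
  exact h2.comp (comap_measurable (tr lev l))

theorem st_HSI (hM : ST_MPS) (hI : ST_IAL) : ST_HSI := by
  intro N lev f f' p q κ C l hT hp hq hne hP ψ hψ
  obtain ⟨uψ, ⟨a, ha, hg⟩, hi⟩ := hψ
  have hS : Sys (mm N) (SS f) (SS f') := by simpa using hM N lev f f' hT 1
  have hAL : IA (mm N) (AL lev l) (SS f) (SS f') := by simpa using hI N lev f f' hT l 1
  set φ : T N → ℂ := fun x => ψ (SS f x) * conj (ψ x) with hφ
  have uφ : UF (mm N) φ := (uψ.comp hS.mp).mul uψ.conj
  have hAφ : AM (mm N) (AL lev l) φ := by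
    refine am_congr (am_mul (am_ex_SS hT.t ha) (am_mul (hAL.2 _ hg).1 (am_conj hg)))
      (Filter.Eventually.of_forall fun x => ?_)
    have e1 := ex_mul_conj a x
    have e2 := ex_mul_conj a (SS f x)
    simp only [map_mul, Complex.conj_conj, hφ]
    calc ex a (SS f x) * conj (ex a x) * (conj (ex a (SS f x)) * ψ (SS f x) *
          (ex a x * conj (ψ x))) = (ex a (SS f x) * conj (ex a (SS f x))) *
          (ex a x * conj (ex a x)) * (ψ (SS f x) * conj (ψ x)) := by ring
      _ = ψ (SS f x) * conj (ψ x) := by rw [e1, e2]; ring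
  have hiφ : Inc (mm N) C (SS f)^[p] φ := by
    have hb1 := (hP.ia.2 _ hi).1
    refine am_congr (am_mul hb1 (am_conj hi)) (Filter.Eventually.of_forall fun x => ?_)
    have e1 : (SS f)^[p] (SS f x) = SS f ((SS f)^[p] x) := by
      rw [← Function.iterate_succ_apply, Function.iterate_succ_apply']
    simp only [hφ, map_mul, Complex.conj_conj, e1]
    ring
  have hs : AM (mm N) C (fun x => φ (SS f x) * conj (φ x)) := hP.s φ uφ hAφ hiφ
  -- the iterates
  have hj : ∀ j : ℕ, AM (mm N) C (fun x => φ ((SS f)^[j] x) * conj (φ x)) := by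
    intro j
    induction j with
    | zero =>
      refine am_congr (am_const 1) ?_
      filter_upwards [uφ.mul_conj] with x hx
      simpa using hx.symm
    | succ j ih =>
      have h1 := ((hP.ia.iterate j).2 _ hs).1
      refine am_congr (am_mul h1 ih) ?_
      filter_upwards [(uφ.comp (hS.iterate j).mp).conj_mul] with x hx
      rw [Function.iterate_succ_apply']
      calc φ (SS f ((SS f)^[j] x)) * conj (φ ((SS f)^[j] x)) *
            (φ ((SS f)^[j] x) * conj (φ x)) = φ (SS f ((SS f)^[j] x)) * conj (φ x) *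
            (conj (φ ((SS f)^[j] x)) * φ ((SS f)^[j] x)) := by ring
        _ = φ (SS f ((SS f)^[j] x)) * conj (φ x) := by rw [hx, mul_one]
  have hn : ∀ n : ℕ, AM (mm N) C
      (fun x => ψ ((SS f)^[n] x) * conj (ψ x) * conj (φ x) ^ n) := by
    intro n
    induction n with
    | zero =>
      refine am_congr (am_const 1) ?_
      filter_upwards [uψ.mul_conj] with x hx
      simpa using hx.symm
    | succ n ih =>
      refine am_congr (am_mul (hj n) ih) ?_
      filter_upwards [(uψ.comp (hS.iterate n).mp).conj_mul] with x hx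
      rw [Function.iterate_succ_apply', pow_succ]
      have e1 : φ ((SS f)^[n] x) = ψ (SS f ((SS f)^[n] x)) * conj (ψ ((SS f)^[n] x)) := rfl
      rw [e1]
      calc ψ (SS f ((SS f)^[n] x)) * conj (ψ ((SS f)^[n] x)) * conj (φ x) *
            (ψ ((SS f)^[n] x) * conj (ψ x) * conj (φ x) ^ n) =
            ψ (SS f ((SS f)^[n] x)) * conj (ψ x) * (conj (φ x) ^ n * conj (φ x)) *
            (conj (ψ ((SS f)^[n] x)) * ψ ((SS f)^[n] x)) := by ring
        _ = ψ (SS f ((SS f)^[n] x)) * conj (ψ x) * (conj (φ x) ^ n * conj (φ x)) := by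
          rw [hx, mul_one]
  have hpow : AM (mm N) C (fun x => φ x ^ p) := by
    refine am_congr (am_mul hi (am_conj (hn p))) ?_
    filter_upwards [uψ.mul_conj, (uψ.comp (hS.iterate p).mp).mul_conj] with x h1 h2
    simp only [map_mul, map_pow, Complex.conj_conj]
    calc ψ ((SS f)^[p] x) * conj (ψ x) * (conj (ψ ((SS f)^[p] x)) * ψ x * φ x ^ p) =
          (ψ ((SS f)^[p] x) * conj (ψ ((SS f)^[p] x))) * (ψ x * conj (ψ x)) * φ x ^ p := by ring
      _ = φ x ^ p := by rw [h1, h2]; ring
  exact hP.c φ uφ hAφ hiφ p hp.one_lt.le ((Nat.coprime_primes hp hq).2 hne) hpow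

end Pool.Agent.Helper94.TWR
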