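import Pool.Agent.Helper94.TWR.HSI
import Pool.Agent.Helper59.TWR.VF2

/-!
Sheet TW (MP_7a8f48_an): row JD0, the visible characters of level `0`.
-/

open MeasureTheory Filter Topology Finset
open scoped ComplexConjugate

namespace Pool.Agent.Helper94.TWR

open Pool.Agent.Helper16.AZ (T mm)
open Pool.Agent.Helper98.TW
open Pool.Agent.Helper96.TWR (AM_comp AM_factor cm_le)
open Pool.Agent.Helper59.TWR (sys_jn ia_BB mp_fst mp_snd st_MPS)

variable {N : ℕ}

theorem ex_eq_circle (a : Fin N → ℤ) (v : T N) :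
    ex a v = (AddCircle.toCircle (∑ i, a i • v i) : ℂ) := by
  have h : ∀ s : Finset (Fin N), (∏ i ∈ s, (fourier (a i) (v i) : ℂ)) =
      (AddCircle.toCircle (∑ i ∈ s, a i • v i) : ℂ) := by
    intro s
    classical
    induction s using Finset.induction_on with
    | empty => simp
    | insert b s hb ih =>
      rw [Finset.prod_insert hb, Finset.sum_insert hb, ih, AddCircle.toCircle_add, Circle.coe_mul,
        fourier_apply]
  exact h Finset.univ

/-- a character with value `1` at `v` -/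
theorem sum_eq_zero_of_ex {a : Fin N → ℤ} {v : T N} (h : ex a v = 1) : ∑ i, a i • v i = 0 := by
  rw [ex_eq_circle] at h
  have h1 : AddCircle.toCircle (∑ i, a i • v i) = 1 := Circle.ext (h.trans Circle.coe_one.symm)
  have h2 : AddCircle.toCircle (∑ i, a i • v i) = AddCircle.toCircle (0 : UnitAddCircle) := by
    rw [h1, AddCircle.toCircle_zero]
  exact AddCircle.injective_toCircle one_ne_zero h2

theorem ex_nsmul (n : ℕ) (a : Fin N → ℤ) (x : T N) : ex ((n : ℤ) • a) x = ex a x ^ n := by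
  induction n with
  | zero => simp [ex_zero]
  | succ n ih =>
    have : ((n + 1 : ℕ) : ℤ) • a = (n : ℤ) • a + a := by
      push_cast
      rw [add_smul, one_smul]
    rw [this, ex_add, ih, pow_succ]

/-- characters of level `0` are eigenfunctions -/
theorem ex_SS {lev : Fin N → ℕ} {f : Fin N → T N → U} (hf : Tow lev f) {k : Fin N → ℤ}
    (hk : la lev 0 k) (x : T N) : ex k (SS f x) = ex k (fun i => f i 0) * ex k x := by
  have e1 : SS f x = (fun i => f i x) + x := by
    funext i
    simp [SS, add_comm]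
  rw [e1, ex_vadd]
  congr 1
  simp only [ex, UnitAddTorus.mFourier, ContinuousMap.coe_mk]
  refine Finset.prod_congr rfl fun i _ => ?_
  by_cases h : k i = 0
  · simp [h]
  · have h0 := hk i h
    have h1 : tr lev (lev i) x = 0 := by
      funext j
      simp [tr, h0]
    rw [← hf.dep i x, h1]

theorem ex_SS_iter {lev : Fin N → ℕ} {f : Fin N → T N → U} (hf : Tow lev f) {k : Fin N → ℤ}
    (hk : la lev 0 k) (n : ℕ) (x : T N) :
    ex k ((SS f)^[n] x) = ex k (fun i => f i 0) ^ n * ex k x := by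
  induction n with
  | zero => simp
  | succ n ih => rw [Function.iterate_succ_apply', ex_SS hf hk, ih, pow_succ]; ring

theorem st_JD0 (hLZ : ST_LZ) : ST_JD0 := by
  intro N lev f f' p q κ hT hMR hE hp hq hne hκ k hk hn
  have hP : IsProbabilityMeasure κ := hκ.prob
  have hfst := mp_fst hκ
  have hsnd := mp_snd hκ
  have hS := sys_jn hT hκ
  have hI := ia_BB hT hκ
  set v : T N := fun i => f i 0 with hv
  have uψ : UF κ (fun z : T N × T N => ex k z.1) := (uf_ex k).comp hfst
  have hi : Inc κ (BB N) (Prod.map (SS f)^[p] (SS f)^[q]) (fun z : T N × T N => ex k z.1) := by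
    refine am_congr (am_const (ex k v ^ p)) (Filter.Eventually.of_forall fun z => ?_)
    have e1 : (Prod.map (SS f)^[p] (SS f)^[q] z).1 = (SS f)^[p] z.1 := rfl
    simp only
    rw [e1, ex_SS_iter hT.t hk, mul_assoc, ex_mul_conj, mul_one]
  rcases hLZ _ κ _ _ (BB N) _ hS hκ.erg hI uψ hi with h0 | h0
  · exact absurd h0 hn
  -- the function of the second coordinate
  obtain ⟨F, hFm, -, hF⟩ := AM_factor (μ' := mm N) (π := (Prod.snd : T N × T N → T N))
    (le_refl (α := MeasurableSpace (T N)) _) h0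
  have hF1 : ∀ᵐ y ∂(mm N), F ((SS f)^[q] y) = ex k v ^ p * F y := by
    rw [← hκ.snd]
    have hm : Measurable (SS f)^[q] := (st_MPS N lev f f' hT q).mp.measurable
    refine (ae_map_iff measurable_snd.aemeasurable
      (measurableSet_eq_fun (hFm.comp hm) (measurable_const.mul hFm))).2 ?_
    filter_upwards [hF, ae_comp hS.mp hF] with z h1 h2
    have e2 : (Prod.map (SS f)^[p] (SS f)^[q] z).2 = (SS f)^[q] z.2 := rfl
    have e1 : (Prod.map (SS f)^[p] (SS f)^[q] z).1 = (SS f)^[p] z.1 := rfl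
    rw [e1, e2] at h2
    show F ((SS f)^[q] z.2) = ex k v ^ p * F z.2
    rw [← h2, ex_SS_iter hT.t hk, ← h1]
  have hF2 : ∀ᵐ y ∂(mm N), ‖F y‖ = 1 := by
    rw [← hκ.snd]
    refine (ae_map_iff measurable_snd.aemeasurable
      (measurableSet_eq_fun hFm.norm measurable_const)).2 ?_
    filter_upwards [hF] with z h1
    rw [← h1, ex_norm]
  have hF3 : MemLp F 2 (mm N) := MemLp.of_bound hFm.aestronglyMeasurable 1
    (hF2.mono fun y hy => hy.le)
  obtain ⟨k', b, hk', hb⟩ := (hE q hq.one_lt.le).2 F (ex k v ^ p) hF3 hF1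
  have hmq := (st_MPS N lev f f' hT q).mp
  obtain ⟨y, h1, h2, h3, h4⟩ : ∃ y, F ((SS f)^[q] y) = ex k v ^ p * F y ∧ ‖F y‖ = 1 ∧
      F y = b * ex k' y ∧ F ((SS f)^[q] y) = b * ex k' ((SS f)^[q] y) := by
    have : ∀ᵐ y ∂(mm N), F ((SS f)^[q] y) = ex k v ^ p * F y ∧ ‖F y‖ = 1 ∧
      F y = b * ex k' y ∧ F ((SS f)^[q] y) = b * ex k' ((SS f)^[q] y) := by
      filter_upwards [hF1, hF2, hb, ae_comp hmq hb] with y h1 h2 h3 h4
      exact ⟨h1, h2, h3, h4⟩
    exact this.exists
  have hFy : F y ≠ 0 := by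
    intro h
    rw [h, norm_zero] at h2
    exact zero_ne_one h2
  have h5 : ex k v ^ p = ex k' v ^ q := by
    rw [h4, ex_SS_iter hT.t hk'] at h1
    have h6 : (ex k' v ^ q - ex k v ^ p) * F y = 0 := by
      rw [h3] at h1 ⊢
      linear_combination h1
    rcases mul_eq_zero.1 h6 with h7 | h7
    · exact (sub_eq_zero.1 h7).symm
    · exact absurd h7 hFy
  have h6 : ex ((p : ℤ) • k + -((q : ℤ) • k')) v = 1 := by
    rw [ex_add, ex_neg, ex_nsmul, ex_nsmul, h5, Complex.mul_conj, Complex.normSq_eq_norm_sq,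
      norm_pow, ex_norm]
    simp
  have hla : la lev 0 ((p : ℤ) • k + -((q : ℤ) • k')) := by
    refine la_add (fun i hi => hk i fun h => hi ?_) (la_neg fun i hi => hk' i fun h => hi ?_)
    · simp [h]
    · simp [h]
  have h7 : (p : ℤ) • k + -((q : ℤ) • k') = 0 := by
    by_contra h
    exact hMR _ h hla (sum_eq_zero_of_ex h6)
  intro i
  have h8 : (p : ℤ) * k i = (q : ℤ) * k' i := by
    have := congrFun h7 i
    simp only [Pi.add_apply, Pi.neg_apply, Pi.smul_apply, smul_eq_mul, Pi.zero_apply] at this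
    linarith
  have h9 : (q : ℤ) ∣ (p : ℤ) * k i := ⟨k' i, h8⟩
  have hpq : IsCoprime (q : ℤ) (p : ℤ) :=
    Nat.isCoprime_iff_coprime.2 ((Nat.coprime_primes hq hp).2 (Ne.symm hne))
  exact hpq.dvd_of_dvd_mul_left h9

end Pool.Agent.Helper94.TWR
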