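import Pool.Agent.Helper94.TWR.JD0

/-!
Sheet TW (MP_7a8f48_an): row HDV, divisibility on level `0`.
-/

open MeasureTheory Filter Topology Finset
open scoped ComplexConjugate

namespace Pool.Agent.Helper94.TWR

open Pool.Agent.Helper16.AZ (T mm)
open Pool.Agent.Helper98.TW
open Pool.Agent.Helper96.TWR (AM_comp AM_factor cm_le)
open Pool.Agent.Helper59.TWR (sys_jn ia_BB mp_fst mp_snd st_MPS)

variable {N : ℕ}

theorem st_HDV (hA : ST_ALS) (hJ : ST_JD0) : ST_HDV := by
  intro N lev f f' p q κ hT hMR hE hp hq hne hκ ψ hψ k hk hψk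
  have hP : IsProbabilityMeasure κ := hκ.prob
  have hfst := mp_fst hκ
  obtain ⟨⟨uψ, -, -⟩, M, hM1, hMq, hV⟩ := hψ
  have h0 : AL lev 0 = bo := (hA N lev).1
  rw [h0] at hψk
  obtain ⟨c, hc⟩ := am_bo.1 hψk
  have hc1 : ‖c‖ = 1 := by
    obtain ⟨x, h1, h2⟩ := (hc.and uψ.2).exists
    have h1' : conj (ex k x) * ψ x = c := h1
    rw [← h1', norm_mul, RCLike.norm_conj, ex_norm, h2, one_mul]
  have hψ2 : ∀ᵐ x ∂(mm N), ψ x = c * ex k x := by
    filter_upwards [hc] with x hx
    have e := ex_mul_conj k x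
    calc ψ x = ex k x * conj (ex k x) * ψ x := by rw [e, one_mul]
      _ = conj (ex k x) * ψ x * ex k x := by ring
      _ = c * ex k x := by rw [hx]
  -- the power is visible
  have hV1 : AM κ (BB N) (fun z : T N × T N => ψ z.1 ^ M) := by
    have e1 : jo (BB N) (cm Prod.fst (bo : SA (T N))) = BB N := by
      have e2 : (cm Prod.fst (bo : SA (T N)) : SA (T N × T N)) = bo := MeasurableSpace.comap_bot
      rw [e2]
      exact sup_bot_eq (α := MeasurableSpace (T N × T N)) _
    have := hV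
    unfold Vis at this
    rwa [e1] at this
  have hV2 : AM κ (BB N) (fun z : T N × T N => ex ((M : ℤ) • k) z.1) := by
    refine am_congr (am_mul (am_const (conj c ^ M)) hV1) ?_
    have h1 : ∀ᵐ z ∂κ, ψ z.1 = c * ex k z.1 := hfst.quasiMeasurePreserving.ae hψ2
    filter_upwards [h1] with z hz
    rw [hz, ex_nsmul, mul_pow, ← mul_assoc, ← mul_pow, mul_comm (conj c) c, Complex.mul_conj,
      Complex.normSq_eq_norm_sq, hc1]
    simp
  have hL : Lm (BB N) := cm_le measurable_snd (le_refl (α := MeasurableSpace (T N)) _)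
  have hint : Integrable (fun z : T N × T N => ex ((M : ℤ) • k) z.1) κ :=
    Integrable.of_bound ((ex_meas _).comp measurable_fst).aestronglyMeasurable 1
      (Filter.Eventually.of_forall fun z => (ex_norm _ _).le)
  have hce : κ[fun z : T N × T N => ex ((M : ℤ) • k) z.1|BB N] =ᵐ[κ]
      fun z => ex ((M : ℤ) • k) z.1 :=
    condExp_of_aestronglyMeasurable' hL hV2 hint
  have hne0 : ¬ κ[fun z : T N × T N => ex ((M : ℤ) • k) z.1|BB N] =ᵐ[κ] 0 := by
    intro h
    obtain ⟨z, h1, h2⟩ := (h.and hce).exists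
    rw [h1] at h2
    have h2' : (0 : ℂ) = ex ((M : ℤ) • k) z.1 := h2
    have h3 := ex_norm ((M : ℤ) • k) z.1
    rw [← h2'] at h3
    simp at h3
  have hd := hJ N lev f f' p q κ hT hMR hE hp hq hne hκ ((M : ℤ) • k)
    (fun i hi => hk i fun h => hi (by simp [h])) hne0
  intro i
  have h5 : (q : ℤ) ∣ (M : ℤ) * k i := by simpa using hd i
  have hpq : IsCoprime (q : ℤ) (M : ℤ) := Nat.isCoprime_iff_coprime.2 hMq.symm
  exact hpq.dvd_of_dvd_mul_left h5

end Pool.Agent.Helper94.TWR
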